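import Pool.Agent.Helper31.MHS.Goals
import Pool.Agent.Helper56.MH.OKM

/-!
# Packet MHS-WOK (MP_c578c8_lc): bounds of the system for a part of a computation
-/

namespace Pool.Agent.Helper53.MHS

open Pool.Agent.Helper65.LinSpace Pool.Agent.Helper78.Mpc Pool.Agent.Helper28.Ram Finset
open Pool.Agent.Helper20.MH (Prm Sys)
open Pool.Agent.Helper31.MHS
open Pool.Agent.Helper56.MH

variable (P : WP)

theorem cs_lt (hκ : 0 < P.m.κ) (c : ℕ) : P.cs c < 2 ^ P.sg := by
  unfold WP.cs ifz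
  split_ifs
  · exact Nat.mod_lt _ (by positivity)
  · exact mk_lt P.m (capN_lt _ _) fun _ _ => Nat.pow_lt_pow_right (by norm_num) (by omega)

theorem add_lt {a b s t : ℕ} (ha : a < 2 ^ s) (hb : b < 2 ^ t) : a + 2 ^ s * b < 2 ^ (s + t) := by
  rw [pow_add]
  calc a + 2 ^ s * b < 2 ^ s + 2 ^ s * b := by omega
    _ = 2 ^ s * (b + 1) := by ring
    _ ≤ _ := Nat.mul_le_mul_left _ hb

theorem sys_ok' (hκ : 0 < P.m.κ) (hc : 0 < P.m.c) (c τ : ℕ) : (P.sys c τ).Ok where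
  hsg := by
    change 0 < P.m.S + 1 + P.m.κ * (P.m.K * P.m.D) + P.cb
    omega
  hτ := Nat.succ_pos _
  hσ := Nat.succ_pos _
  hc := hc
  hu0 := add_lt (cs_lt P hκ c) (Nat.mod_lt _ (by positivity))
  hM0 := by
    change 0 < 2 ^ (P.m.S + 2)
    positivity
  hN := fun u v => by
    change P.wN c u v < 2 ^ (P.sg + P.cb)
    exact Nat.mod_lt _ (by positivity)
  hW := fun u v i => by
    change P.wW c u v i < 2 ^ (P.m.S + 2)
    unfold WP.wW ifz
    split_ifs
    · have h := fW_lt P.m (u % 2 ^ P.sg) (P.fl c (u % 2 ^ P.sg) v) i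
      have h2 : 2 ^ (P.m.S + 2) = 2 * 2 ^ (P.m.S + 1) := by ring
      have h3 : 0 < 2 ^ (P.m.S + 1) := by positivity
      omega
    · exact dig_lt (by positivity) _ _
  hB := fun u => fB_lt P.m (u % 2 ^ P.sg)

/-- The code of state and positions after a step. -/
theorem wN_mod (c u v : ℕ) : P.wN c u v % 2 ^ P.sg = u % 2 ^ P.sg ∨
    ∃ v', P.wN c u v % 2 ^ P.sg = P.m.fN (u % 2 ^ P.sg) v' := by
  unfold WP.wN
  rw [pow_add, Nat.mod_mul_right_mod]
  unfold ifz
  split_ifs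
  · right
    refine ⟨P.fl c (u % 2 ^ P.sg) v, ?_⟩
    rw [Nat.add_mul_mod_self_left]
    exact Nat.mod_eq_of_lt (fN_lt P.m _ _)
  · left
    rfl

/-- In `r` steps the coordinates change by at most `r`. -/
theorem steps_le' (c τ t r : ℕ) {k : ℕ} (hk : k < P.m.K * P.m.D) :
    P.m.cq (((P.sys c τ).conf (t + r)).1 % 2 ^ P.sg) k ≤
        P.m.cq (((P.sys c τ).conf t).1 % 2 ^ P.sg) k + r ∧
      P.m.cq (((P.sys c τ).conf t).1 % 2 ^ P.sg) k ≤
        P.m.cq (((P.sys c τ).conf (t + r)).1 % 2 ^ P.sg) k + r := by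
  induction r with
  | zero => exact ⟨le_refl _, le_refl _⟩
  | succ r ih =>
    have e : ((P.sys c τ).conf (t + (r + 1))).1 =
        P.wN c ((P.sys c τ).conf (t + r)).1
          ((P.sys c τ).rd ((P.sys c τ).conf (t + r)).2 ((P.sys c τ).conf (t + r)).1) := rfl
    rw [e]
    rcases wN_mod P c ((P.sys c τ).conf (t + r)).1
      ((P.sys c τ).rd ((P.sys c τ).conf (t + r)).2 ((P.sys c τ).conf (t + r)).1) with h | ⟨v', h⟩
    · rw [h]
      omega
    · rw [h]
      have h2 := step_le P.m (((P.sys c τ).conf (t + r)).1 % 2 ^ P.sg) v' hk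
      omega

theorem wok : WOK_stmt := by
  intro P c τ hκ hc
  refine ⟨sys_ok' P hκ hc c τ, ?_⟩
  intro t r i hr hi
  change r < P.m.c at hr
  change i < P.m.K at hi
  have hK : 0 < P.m.K := by omega
  set q := ((P.sys c τ).conf t).1 % 2 ^ P.sg with hq
  set q' := ((P.sys c τ).conf (t + r)).1 % 2 ^ P.sg with hq'
  set a := fun k => P.m.cq q (i * P.m.D + k) with ha
  set a' := fun k => P.m.cq q' (i * P.m.D + k) with ha'
  have hlt : ∀ k < P.m.D, i * P.m.D + k < P.m.K * P.m.D := by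
    intro k hk
    calc i * P.m.D + k < i * P.m.D + P.m.D := by omega
      _ = (i + 1) * P.m.D := by ring
      _ ≤ P.m.K * P.m.D := Nat.mul_le_mul_right _ hi
  have hb : ∀ k < P.m.D, a' k ≤ a k + r ∧ a k ≤ a' k + r := fun k hk =>
    steps_le' P c τ t r (hlt k hk)
  set δ := fun k => a' k + P.m.c - a k / P.m.c * P.m.c with hδ
  have hδ1 : ∀ k < P.m.D, δ k < 3 * P.m.c ∧ a k / P.m.c * P.m.c ≤ a' k + P.m.c := by
    intro k hk
    obtain ⟨h1, h2⟩ := hb k hk
    have h3 : a k / P.m.c * P.m.c ≤ a k := Nat.div_mul_le_self _ _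
    have h4 : a k < a k / P.m.c * P.m.c + P.m.c := Nat.lt_div_mul_add hc
    change a' k + P.m.c - a k / P.m.c * P.m.c < 3 * P.m.c ∧ _
    omega
  set T := tab (3 * P.m.c) P.m.D δ with hT
  have hTlt : T < (3 * P.m.c) ^ P.m.D := tab_lt fun k hk => (hδ1 k hk).1
  have hj1 : (i + P.m.K * T) % P.m.K = i := by
    rw [Nat.add_mul_mod_self_left, Nat.mod_eq_of_lt hi]
  have hj2 : (i + P.m.K * T) / P.m.K = T := by
    rw [Nat.add_mul_div_left _ _ hK, Nat.div_eq_of_lt hi, zero_add]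
  refine ⟨i + P.m.K * T, ?_, ?_⟩
  · change i + P.m.K * T < P.m.K * (3 * P.m.c) ^ P.m.D
    calc i + P.m.K * T < P.m.K + P.m.K * T := by omega
      _ = P.m.K * (T + 1) := by ring
      _ ≤ _ := Nat.mul_le_mul_left _ hTlt
  · change P.m.nb (P.m.fB q) (i + P.m.K * T) = P.m.cell q' i
    unfold Prm.nb Prm.cell
    rw [hj1, hj2]
    congr 2
    refine tab_congr fun k hk => ?_
    have e1 : dig (2 ^ P.m.κ) (P.m.fB q) (i * P.m.D + k) = a k / P.m.c := by
      unfold Prm.fB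
      rw [dig_tab (fun k _ => (Nat.div_le_self _ _).trans_lt (cq_lt P.m _ k)) (hlt k hk)]
    have e2 : dig (3 * P.m.c) T k = δ k := dig_tab (fun k hk => (hδ1 k hk).1) hk
    rw [e1, e2]
    have h5 := (hδ1 k hk).2
    have e3 : a k / P.m.c * P.m.c + δ k - P.m.c = a' k := by
      change a k / P.m.c * P.m.c + (a' k + P.m.c - a k / P.m.c * P.m.c) - P.m.c = a' k
      omega
    rw [e3]
    exact Nat.mod_eq_of_lt (cq_lt P.m _ _)

end Pool.Agent.Helper53.MHS
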